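import Pool.Agent.V7H36.QL.Baum

/-! The comparison map of Baumslag's group is not surjective. -/

set_option autoImplicit false

open Function

namespace Pool.Agent.V7H36.QL

/-- the criterion: a homomorphism `V → G → V ⋊ ℤ²` which is not zero on the top homology of `V` -/
theorem criterion {T : Theory} (h : IsTheory T) {k p : ℕ} (L : Lat (k + 2)) (hp : p.Prime)
    (hp2 : p ≠ 2) {G : Gp} (ι : L.base.Hom G) (π : G.Hom L.total) (hc : ι.then π = L.incl)
    (z : T.H L.base p (k + 2)) (hz : T.mapH L.incl p (k + 2) z ≠ T.zero _ _ _) :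
    ¬ Surjective (T.cmp (T.perf G) p (k : ℤ)) := by
  intro hs
  obtain ⟨hV', hΓ, h1, h2, h3⟩ := h.hurewicz L p hp hp2
  obtain ⟨y, hy⟩ := h1 z
  obtain ⟨u, hu⟩ := (h.bottT_bijective (T.perf L.base) p k hp hp2).2
    (T.cmp (T.perf L.base) p (sh k) y)
  obtain ⟨v, hv⟩ := hs (T.mapT ι p k u)
  have e1 : T.cmp _ p k (T.map π p k v) = T.mapT L.incl p k u := by
    rw [h.cmp_map, hv, ← h.mapT_comp, hc]
  have e2 : T.bott _ p k (T.map π p k v) = T.map L.incl p (sh k) y := by
    have hinj : Injective (T.cmp (T.perf L.total) p (sh k)) := by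
      have e0 := (h.qlDim L p hp.one_le).2
      have e3 : ((k : ℤ) + 4 - 2) = sh k := by unfold sh; ring
      rwa [e3] at e0
    apply hinj
    rw [h.cmp_bott _ _ _ hp hp2, e1, ← h.mapT_bottT _ _ _ hp hp2, hu, h.cmp_map]
  apply hz
  rw [← hy, ← h3, ← e2, h2]

/-- the fundamental class of `V` is not zero in `V ⋊ ℤ²`, if `ℤ²` acts with determinant one -/
theorem nonzero {T : Theory} (h : IsTheory T) {n p : ℕ} (L : Lat n)
    (hφ : ∀ q, LinearMap.det (lin L.φ q) = 1) (hp : p.Prime) (hn : n < p) :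
    T.mapH L.incl p n (T.torus (G := L.base) p (fun i => Multiplicative.ofAdd (L.basis i))) ≠
      T.zero _ _ _ := by
  intro h0
  have hc : Commuting (G := L.base) (fun i => Multiplicative.ofAdd (L.basis i)) := fun i j =>
    mul_comm (G := Multiplicative L.V) _ _
  rw [h.mapH_torus _ _ _ hc] at h0
  obtain ⟨e, he0, he⟩ := h.eval (G := L.total) p n (D (φ := L.φ) L.basis p)
    (cocycle L.basis p hφ)
  have hc' : Commuting (G := L.total) (fun i => emb L.φ (L.basis i)) := by
    intro i j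
    change emb L.φ (L.basis i) * emb L.φ (L.basis j) = emb L.φ (L.basis j) * emb L.φ (L.basis i)
    unfold emb
    rw [← map_mul, ← ofAdd_add, add_comm, ofAdd_add, map_mul]
  have h1 := he (fun i => emb L.φ (L.basis i)) hc'
  have h4 : torusValue (G := L.total.carrier) (D (φ := L.φ) L.basis p)
      (fun i => emb L.φ (L.basis i)) = ((n.factorial : ℕ) : ZMod p) := value L.basis p
  rw [h4] at h1
  have h2 : T.torus (G := L.total) p (fun i => emb L.φ (L.basis i)) = T.zero _ _ _ := h0
  rw [h2, he0] at h1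
  have h3 := (ZMod.natCast_eq_zero_iff _ _).1 h1.symm
  rw [hp.dvd_factorial] at h3
  omega

theorem not_surjective {T : Theory} (h : IsTheory T) {k p : ℕ} (hk : Even k) (hp : p.Prime)
    (hkp : k + 2 < p) : ¬ Surjective (T.cmp (T.perf Baumslag) p (k : ℤ)) := by
  obtain ⟨ι, π, hι⟩ := exists_homs k
  exact criterion h (lat k) hp (by omega) ι π hι _
    (nonzero h (lat k) (det_phi k hk) hp hkp)

/-- the smooth category -/
theorem smooth_case {T : Theory} (h : IsTheory T) {k p : ℕ} (hk : Even k) (hp : p.Prime)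
    (hkp : k + 2 < p) : ¬ Surjective (T.cmp (T.Perf (T.loop 3 rels)) p (k : ℤ)) := by
  intro hs
  obtain ⟨e, e', he⟩ := h.goodwillie _ _ (h.pi0_loop 3 rels) p k hp.one_le
  refine not_surjective h hk hp hkp fun y => ?_
  obtain ⟨w, hw⟩ := hs (e'.symm y)
  refine ⟨e w, ?_⟩
  have h1 := he w
  rw [hw, Equiv.apply_symm_apply] at h1
  exact h1.symm

theorem infinite_dim {T : KData} {A : T.Cat} (h : ∀ k p : ℕ, Even k → p.Prime → k + 2 < p →
    ¬ Surjective (T.cmp A p (k : ℤ))) (d : ℤ) : ¬ T.QLDimLE A d := by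
  intro hd
  obtain ⟨p, hp1, hp⟩ := Nat.exists_infinite_primes (2 * d.toNat + 3)
  refine h (2 * d.toNat) p (even_two_mul _) hp (by omega) ((hd p hp.one_le).1 _ ?_).2
  push_cast
  omega

end Pool.Agent.V7H36.QL
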