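import Mathlib

/-! The ring `ℤ[x]/(x ^ (k + 2) + x ^ (k + 1) + 1)`, in which `x` and `1 + x` are units. -/

set_option autoImplicit false

open Polynomial

namespace Pool.Agent.V7H36.QL

/-- the polynomial -/
noncomputable def pol (k : ℕ) : ℤ[X] := X ^ (k + 2) + (X ^ (k + 1) + 1)

lemma deg_aux (k : ℕ) : (X ^ (k + 1) + 1 : ℤ[X]).degree < (X ^ (k + 2) : ℤ[X]).degree := by
  rw [degree_X_pow]
  refine lt_of_le_of_lt (degree_add_le _ _) ?_
  rw [max_lt_iff, degree_X_pow, degree_one]
  constructor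
  · exact_mod_cast Nat.lt_succ_self (k + 1)
  · exact_mod_cast Nat.succ_pos (k + 1)

lemma pol_monic (k : ℕ) : (pol k).Monic := (monic_X_pow (k + 2)).add_of_left (deg_aux k)

lemma pol_natDegree (k : ℕ) : (pol k).natDegree = k + 2 := by
  unfold pol
  rw [natDegree_add_eq_left_of_degree_lt (deg_aux k), natDegree_X_pow]

/-- the ring -/
abbrev O (k : ℕ) : Type := AdjoinRoot (pol k)

/-- the element `x` -/
noncomputable def x (k : ℕ) : O k := AdjoinRoot.root (pol k)

lemma x_rel (k : ℕ) : x k ^ (k + 2) + (x k ^ (k + 1) + 1) = 0 := by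
  have h : aeval (x k) (pol k) = 0 := by
    change aeval (AdjoinRoot.root (pol k)) (pol k) = 0
    rw [AdjoinRoot.aeval_eq, AdjoinRoot.mk_self]
  have h2 : aeval (x k) (X ^ (k + 2) + (X ^ (k + 1) + 1) : ℤ[X]) = 0 := h
  rwa [map_add, map_add, map_pow, map_pow, aeval_X, map_one] at h2

/-- the power basis -/
noncomputable def pb (k : ℕ) : PowerBasis ℤ (O k) := AdjoinRoot.powerBasis' (pol_monic k)

lemma pb_dim (k : ℕ) : (pb k).dim = k + 2 := pol_natDegree k

/-- the basis `1, x, …` -/
noncomputable def bas (k : ℕ) : Module.Basis (Fin (k + 2)) ℤ (O k) :=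
  (pb k).basis.reindex (finCongr (pb_dim k))

lemma bas_apply (k : ℕ) (i : Fin (k + 2)) : bas k i = x k ^ (i : ℕ) := by
  unfold bas
  rw [Module.Basis.reindex_apply, PowerBasis.basis_eq_pow]
  rfl

instance (k : ℕ) : Module.Free ℤ (O k) := Module.Free.of_basis (bas k)

instance (k : ℕ) : Module.Finite ℤ (O k) := Module.Finite.of_basis (bas k)

lemma minpoly_x (k : ℕ) : minpoly ℤ (pb k).gen = pol k := by
  symm
  refine minpoly.unique' ℤ _ (pol_monic k) ?_ ?_
  · change aeval (AdjoinRoot.root (pol k)) (pol k) = 0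
    rw [AdjoinRoot.aeval_eq, AdjoinRoot.mk_self]
  · intro q hq
    by_contra hcon
    push Not at hcon
    have h1 := (pb k).dim_le_degree_of_root hcon.1 hcon.2
    rw [degree_eq_natDegree (pol_monic k).ne_zero, pol_natDegree] at hq
    rw [pb_dim] at h1
    exact absurd hq (not_lt.2 h1)

lemma norm_x (k : ℕ) (hk : Even k) : Algebra.norm ℤ (x k) = 1 := by
  have h := Algebra.PowerBasis.norm_gen_eq_coeff_zero_minpoly (pb k)
  rw [minpoly_x, pb_dim] at h
  have h1 : (pol k).coeff 0 = 1 := by simp [pol]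
  rw [h1, (hk.add (by decide : Even 2)).neg_one_pow, mul_one] at h
  exact h

lemma norm_x' (k : ℕ) (hk : Even k) : Algebra.norm ℤ (1 + x k) = 1 := by
  have h1 : (LinearMap.charpoly (Algebra.lmul ℤ (O k) (x k))) = pol k := by
    rw [← LinearMap.charpoly_toMatrix _ (pb k).basis]
    have h2 := charpoly_leftMulMatrix (pb k)
    rw [minpoly_x] at h2
    exact h2
  have h2 := LinearMap.eval_charpoly (Algebra.lmul ℤ (O k) (x k)) (-1)
  rw [h1] at h2
  have h3 : (pol k).eval (-1) = 1 := by
    have e1 : Even (k + 2) := hk.add (by decide)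
    have e2 : Odd (k + 1) := hk.add_one
    simp [pol, e1.neg_one_pow, e2.neg_one_pow]
  have h4 : (algebraMap ℤ (Module.End ℤ (O k))) (-1) - Algebra.lmul ℤ (O k) (x k) =
      Algebra.lmul ℤ (O k) (-(1 + x k)) := by
    rw [map_neg, map_one, map_neg, map_add, map_one]
    abel
  rw [h3, h4] at h2
  have h5 : Algebra.norm ℤ (-(1 + x k)) = 1 := h2.symm
  have h6 : Algebra.norm ℤ (-1 : O k) = 1 := by
    have h7 : (-1 : O k) = algebraMap ℤ (O k) (-1) := by simp
    rw [h7, Algebra.norm_algebraMap_of_basis (bas k), Fintype.card_fin]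
    exact (hk.add (by decide : Even 2)).neg_one_pow
  have h7 : Algebra.norm ℤ (-(1 + x k)) = Algebra.norm ℤ (-1 : O k) * Algebra.norm ℤ (1 + x k) := by
    rw [← map_mul, neg_one_mul]
  rw [h7, h6, one_mul] at h5
  exact h5

/-- the unit `x` -/
noncomputable def ux (k : ℕ) : (O k)ˣ where
  val := x k
  inv := -(x k ^ (k + 1) + x k ^ k)
  val_inv := by linear_combination -(x_rel k)
  inv_val := by linear_combination -(x_rel k)

/-- the unit `1 + x` -/
noncomputable def uy (k : ℕ) : (O k)ˣ where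
  val := 1 + x k
  inv := -(x k ^ (k + 1))
  val_inv := by linear_combination -(x_rel k)
  inv_val := by linear_combination -(x_rel k)

end Pool.Agent.V7H36.QL
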