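import Pool.Agent.V7H36.QL.Coc
import Pool.Agent.V7H36.QL.Ring

/-! Baumslag's finitely presented metabelian group. -/

set_option autoImplicit false

open Function

namespace Pool.Agent.V7H36.QL

/-- The generator `a`. -/
def ga : FreeGroup (Fin 3) := FreeGroup.of 0

/-- The generator `s`. -/
def gs : FreeGroup (Fin 3) := FreeGroup.of 1

/-- The generator `t`. -/
def gt : FreeGroup (Fin 3) := FreeGroup.of 2

/-- The conjugate `a' = t a t⁻¹`. -/
def ga' : FreeGroup (Fin 3) := gt * ga * gt⁻¹

/-- The relations `s t = t s`, `a a' = a' a`, `s a s⁻¹ = a a'`. -/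
def rels : Set (FreeGroup (Fin 3)) :=
  {gs * gt * (gt * gs)⁻¹, ga * ga' * (ga' * ga)⁻¹, gs * ga * gs⁻¹ * (ga * ga')⁻¹}

/-- Baumslag's group `⟨a, s, t | s t = t s, a a' = a' a, s a s⁻¹ = a a'⟩`, `a' = t a t⁻¹`. -/
def Baumslag : Gp := presented 3 rels

lemma rels_finite : rels.Finite := by
  unfold rels
  exact Set.toFinite _

section

variable {G : Type} [Group G] (τ σ : MulAut G) (a : G)

lemma shift {i k : ℕ} (h : Commute a ((τ ^ k) a)) : Commute ((τ ^ i) a) ((τ ^ (i + k)) a) := by
  have h1 := h.map (τ ^ i).toMonoidHom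
  have h2 : (τ ^ i).toMonoidHom ((τ ^ k) a) = (τ ^ (i + k)) a := by
    rw [pow_add]
    rfl
  rw [h2] at h1
  exact h1

lemma comm_aux (hc : Commute σ τ) (h1 : Commute a (τ a)) (h2 : σ a = a * τ a) (k : ℕ) :
    Commute a ((τ ^ k) a) := by
  induction k using Nat.strong_induction_on with
  | _ k ih =>
    match k, ih with
    | 0, _ => exact Commute.refl a
    | 1, _ => simpa using h1
    | (k + 2), ih =>
      have g1 := ih (k + 1) (by omega)
      have g0 := ih k (by omega)
      have e1 : Commute ((τ ^ 1) a) ((τ ^ (k + 1)) a) := by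
        have := shift τ a (i := 1) g0
        rwa [add_comm] at this
      have e2 : Commute ((τ ^ 1) a) ((τ ^ (k + 2)) a) := by
        have := shift τ a (i := 1) g1
        rwa [show 1 + (k + 1) = k + 2 by omega] at this
      have e3 := g1.map σ.toMonoidHom
      have e4 : σ.toMonoidHom ((τ ^ (k + 1)) a) = (τ ^ (k + 1)) a * (τ ^ (k + 2)) a := by
        have f1 : σ * τ ^ (k + 1) = τ ^ (k + 1) * σ := (hc.pow_right (k + 1)).eq
        have f2 : σ ((τ ^ (k + 1)) a) = (τ ^ (k + 1)) (σ a) := by
          change (σ * τ ^ (k + 1)) a = (τ ^ (k + 1) * σ) a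
          rw [f1]
        change σ ((τ ^ (k + 1)) a) = _
        rw [f2, h2, map_mul]
        congr 1
      have e5 : σ.toMonoidHom a = a * (τ ^ 1) a := by
        rw [pow_one]
        exact h2
      rw [e4, e5] at e3
      have e6 : Commute ((τ ^ 1) a)⁻¹ ((τ ^ (k + 1)) a * (τ ^ (k + 2)) a) :=
        (e1.mul_right e2).inv_left
      have e7 : Commute a ((τ ^ (k + 1)) a * (τ ^ (k + 2)) a) := by
        have := e3.mul_left e6
        rwa [mul_inv_cancel_right] at this
      have e8 : Commute a (((τ ^ (k + 1)) a)⁻¹ * ((τ ^ (k + 1)) a * (τ ^ (k + 2)) a)) :=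
        g1.inv_right.mul_right e7
      rwa [inv_mul_cancel_left] at e8

lemma comm_all (hc : Commute σ τ) (h1 : Commute a (τ a)) (h2 : σ a = a * τ a) (i j : ℕ) :
    Commute ((τ ^ i) a) ((τ ^ j) a) := by
  rcases le_total i j with h | h
  · obtain ⟨k, rfl⟩ := Nat.exists_eq_add_of_le h
    exact shift τ a (comm_aux τ σ a hc h1 h2 k)
  · obtain ⟨k, rfl⟩ := Nat.exists_eq_add_of_le h
    exact (shift τ a (comm_aux τ σ a hc h1 h2 k)).symm

end

/-- A basis of a free abelian group and commuting elements define a homomorphism. -/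
lemma exists_hom {G V : Type} [Group G] [AddCommGroup V] {n : ℕ} (b : Module.Basis (Fin n) ℤ V)
    (y : Fin n → G) (hy : ∀ i j, Commute (y i) (y j)) :
    ∃ f : Multiplicative V →* G, ∀ i, f (Multiplicative.ofAdd (b i)) = y i := by
  classical
  let _ : CommGroup (Subgroup.closure (Set.range y)) := Subgroup.closureCommGroupOfComm (by
    rintro _ ⟨i, rfl⟩ _ ⟨j, rfl⟩
    exact hy i j)
  let g : V →ₗ[ℤ] Additive (Subgroup.closure (Set.range y)) :=
    b.constr ℤ (fun i => Additive.ofMul (⟨y i, Subgroup.subset_closure ⟨i, rfl⟩⟩ :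
      Subgroup.closure (Set.range y)))
  refine ⟨(Subgroup.closure (Set.range y)).subtype.comp
    (AddMonoidHom.toMultiplicativeLeft g.toAddMonoidHom), fun i => ?_⟩
  have h : g (b i) = Additive.ofMul (⟨y i, Subgroup.subset_closure ⟨i, rfl⟩⟩ :
      Subgroup.closure (Set.range y)) := b.constr_basis ℤ _ i
  change ((Additive.toMul (g (b i)) : Subgroup.closure (Set.range y)) : G) = y i
  rw [h]
  rfl

/-- Two homomorphisms which agree on a basis are equal. -/
lemma hom_ext {G V : Type} [Group G] [AddCommGroup V] {n : ℕ} (b : Module.Basis (Fin n) ℤ V)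
    (f g : Multiplicative V →* G)
    (h : ∀ i, f (Multiplicative.ofAdd (b i)) = g (Multiplicative.ofAdd (b i))) : f = g := by
  refine MonoidHom.ext fun v => ?_
  have h1 : ∀ w : V, f (Multiplicative.ofAdd w) = g (Multiplicative.ofAdd w) := by
    intro w
    have hw : w ∈ Submodule.span ℤ (Set.range b) := b.mem_span w
    induction hw using Submodule.span_induction with
    | mem x hx =>
      obtain ⟨i, rfl⟩ := hx
      exact h i
    | zero => simp
    | add x y _ _ hx hy => rw [ofAdd_add, map_mul, map_mul, hx, hy]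
    | smul c x _ hx => rw [ofAdd_zsmul, map_zpow, map_zpow, hx]
  exact h1 (Multiplicative.toAdd v)

/-- the action of the units -/
def act (R : Type) [CommRing R] : Rˣ →* MulAut (Multiplicative R) where
  toFun u :=
    { toFun := fun v => Multiplicative.ofAdd ((u : R) * v.toAdd)
      invFun := fun v => Multiplicative.ofAdd (((u⁻¹ : Rˣ) : R) * v.toAdd)
      left_inv := fun v => by simp
      right_inv := fun v => by simp
      map_mul' := fun v w => by simp [mul_add] }
  map_one' := by
    ext v
    simp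
  map_mul' u w := by
    ext v
    simp [mul_assoc]

/-- the pair of units as a homomorphism -/
noncomputable def units (k : ℕ) : Multiplicative ℤ × Multiplicative ℤ →* (O k)ˣ :=
  (zpowersHom (O k)ˣ (uy k)).coprod (zpowersHom (O k)ˣ (ux k))

/-- the action of `ℤ²` on `O k` -/
noncomputable def phi (k : ℕ) : Multiplicative ℤ × Multiplicative ℤ →*
    MulAut (Multiplicative (O k)) := (act (O k)).comp (units k)

lemma det_phi (k : ℕ) (hk : Even k) (q : Multiplicative ℤ × Multiplicative ℤ) :
    LinearMap.det (lin (phi k) q) = 1 := by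
  have h1 : lin (phi k) q = Algebra.lmul ℤ (O k) ((units k q : (O k)ˣ) : O k) := by
    ext v
    rfl
  rw [h1]
  change Algebra.norm ℤ ((units k q : (O k)ˣ) : O k) = 1
  have h2 : Units.map (Algebra.norm ℤ : O k →* ℤ) (units k q) = 1 := by
    have e1 : Units.map (Algebra.norm ℤ : O k →* ℤ) (ux k) = 1 := Units.ext (norm_x k hk)
    have e2 : Units.map (Algebra.norm ℤ : O k →* ℤ) (uy k) = 1 := Units.ext (norm_x' k hk)
    unfold units
    rw [MonoidHom.coprod_apply, map_mul, zpowersHom_apply, zpowersHom_apply, map_zpow, map_zpow,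
      e1, e2, one_zpow, one_zpow, one_mul]
  exact congrArg Units.val h2

/-- the group `O k ⋊ ℤ²` -/
abbrev Gam (k : ℕ) : Type :=
  SemidirectProduct (Multiplicative (O k)) (Multiplicative ℤ × Multiplicative ℤ) (phi k)

/-- the images of the generators -/
noncomputable def gens (k : ℕ) : Fin 3 → Gam k :=
  ![emb (phi k) 1, SemidirectProduct.inr (Multiplicative.ofAdd 1, 1),
    SemidirectProduct.inr (1, Multiplicative.ofAdd 1)]

lemma conj_t (k : ℕ) (v : O k) : gens k 2 * emb (phi k) v * (gens k 2)⁻¹ = emb (phi k) (x k * v) := by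
  have h := SemidirectProduct.inl_aut (φ := phi k) (1, Multiplicative.ofAdd 1)
    (Multiplicative.ofAdd v)
  change SemidirectProduct.inr (1, Multiplicative.ofAdd 1) * emb (phi k) v *
    (SemidirectProduct.inr (1, Multiplicative.ofAdd 1))⁻¹ = _
  unfold emb
  rw [← map_inv, ← h]
  congr 1
  simp [phi, units, act, ux]

lemma conj_s (k : ℕ) (v : O k) :
    gens k 1 * emb (phi k) v * (gens k 1)⁻¹ = emb (phi k) ((1 + x k) * v) := by
  have h := SemidirectProduct.inl_aut (φ := phi k) (Multiplicative.ofAdd 1, 1)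
    (Multiplicative.ofAdd v)
  change SemidirectProduct.inr (Multiplicative.ofAdd 1, 1) * emb (phi k) v *
    (SemidirectProduct.inr (Multiplicative.ofAdd 1, 1))⁻¹ = _
  unfold emb
  rw [← map_inv, ← h]
  congr 1
  simp [phi, units, act, uy]

lemma gens_zero (k : ℕ) : gens k 0 = emb (phi k) 1 := rfl

lemma emb_mul (k : ℕ) (v w : O k) : emb (phi k) v * emb (phi k) w = emb (phi k) (v + w) := by
  unfold emb
  rw [← map_mul, ofAdd_add]

lemma gens_rel (k : ℕ) : ∀ r ∈ rels, FreeGroup.lift (gens k) r = 1 := by
  intro r hr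
  rcases hr with rfl | rfl | rfl
  · simp only [map_mul, map_inv, gs, gt, FreeGroup.lift_apply_of]
    have h : gens k 1 * gens k 2 = gens k 2 * gens k 1 := by
      change SemidirectProduct.inr (Multiplicative.ofAdd 1, 1) *
        SemidirectProduct.inr (1, Multiplicative.ofAdd 1) =
        SemidirectProduct.inr (1, Multiplicative.ofAdd 1) *
        SemidirectProduct.inr (Multiplicative.ofAdd 1, 1)
      rw [← map_mul, ← map_mul, mul_comm]
    rw [h, mul_inv_cancel]
  · simp only [map_mul, map_inv, ga', ga, gt, FreeGroup.lift_apply_of]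
    rw [gens_zero, conj_t, emb_mul, emb_mul, add_comm, mul_inv_cancel]
  · simp only [map_mul, map_inv, ga', gs, ga, gt, FreeGroup.lift_apply_of]
    rw [gens_zero, conj_t, conj_s, emb_mul, mul_inv_eq_one]
    congr 1
    ring

/-- the homomorphism to `Gam k` -/
noncomputable def proj (k : ℕ) : PresentedGroup rels →* Gam k := PresentedGroup.toGroup (gens_rel k)

/-- the elements `t ^ i a t ^ (-i)` -/
noncomputable def el (i : ℕ) : PresentedGroup rels :=
  ((MulAut.conj (PresentedGroup.of (rels := rels) 2)) ^ i) (PresentedGroup.of 0)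

lemma el_comm (i j : ℕ) : Commute (el i) (el j) := by
  have r1 : (PresentedGroup.of (rels := rels) 1) * PresentedGroup.of 2 =
      PresentedGroup.of 2 * PresentedGroup.of 1 := by
    have h := PresentedGroup.one_of_mem (rels := rels) (x := _) (Or.inl rfl)
    rw [map_mul, map_inv, mul_inv_eq_one] at h
    exact h
  have r2 : Commute (PresentedGroup.of (rels := rels) 0)
      (MulAut.conj (PresentedGroup.of (rels := rels) 2) (PresentedGroup.of 0)) := by
    have h := PresentedGroup.one_of_mem (rels := rels) (x := _) (Or.inr (Or.inl rfl))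
    rw [map_mul, map_inv, mul_inv_eq_one] at h
    exact h
  have r3 : MulAut.conj (PresentedGroup.of (rels := rels) 1) (PresentedGroup.of 0) =
      PresentedGroup.of 0 *
        MulAut.conj (PresentedGroup.of (rels := rels) 2) (PresentedGroup.of 0) := by
    have h := PresentedGroup.one_of_mem (rels := rels) (x := _) (Or.inr (Or.inr rfl))
    rw [map_mul, map_inv, mul_inv_eq_one] at h
    exact h
  refine comm_all _ (MulAut.conj (PresentedGroup.of (rels := rels) 1)) _ ?_ r2 r3 i j
  change _ * _ = _ * _
  rw [← map_mul, ← map_mul, r1]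

lemma proj_el (k i : ℕ) : proj k (el i) = emb (phi k) (x k ^ i) := by
  induction i with
  | zero =>
    change proj k (PresentedGroup.of 0) = _
    rw [pow_zero]
    exact PresentedGroup.toGroup.of (gens_rel k)
  | succ i ih =>
    have h1 : el (i + 1) = PresentedGroup.of 2 * el i * (PresentedGroup.of 2)⁻¹ := by
      unfold el
      rw [pow_succ']
      rfl
    have h2 : proj k (PresentedGroup.of 2) = gens k 2 := PresentedGroup.toGroup.of (gens_rel k)
    rw [h1, map_mul, map_mul, map_inv, ih, h2, conj_t, pow_succ']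

/-- the lattice `O k` with the action of `ℤ²` -/
noncomputable def lat (k : ℕ) : Lat (k + 2) := ⟨O k, bas k, phi k⟩

/-- **The homomorphisms.** -/
theorem exists_homs (k : ℕ) : ∃ (ι : (lat k).base.Hom Baumslag) (π : Baumslag.Hom (lat k).total),
    ι.then π = (lat k).incl := by
  obtain ⟨ι, hι⟩ := exists_hom (bas k) (fun i : Fin (k + 2) => el i) fun i j => el_comm i j
  refine ⟨ι, proj k, hom_ext (G := Gam k) (bas k) _ _ fun i => ?_⟩
  change (proj k) (ι (Multiplicative.ofAdd (bas k i))) = _
  rw [hι, proj_el, bas_apply]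
  rfl

end Pool.Agent.V7H36.QL
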