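import Pool.Agent.V7H36.QL.Defs

/-! The determinant cocycle of an affine group of determinant one. -/

set_option autoImplicit false

open Function

namespace Pool.Agent.V7H36.QL

lemma det_diff {V : Type} [AddCommGroup V] {n : ℕ} (b : Module.Basis (Fin n) ℤ V)
    (w : Fin (n + 1) → V) :
    b.det (fun i : Fin n => w i.succ - w 0) =
      (Matrix.of fun i : Fin (n + 1) =>
        (Fin.cons 1 (fun j => b.repr (w i) j) : Fin (n + 1) → ℤ)).det := by
  rw [Matrix.det_eq_of_forall_row_eq_smul_add_const (B := Matrix.of fun i : Fin (n + 1) =>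
      (Fin.cases (Fin.cons 1 (fun j => b.repr (w 0) j))
        (fun i => Fin.cons 0 (fun j => b.repr (w i.succ - w 0) j)) i : Fin (n + 1) → ℤ))
    (fun i => if i = 0 then 0 else 1) 0 (by simp) ?_]
  · rw [Matrix.det_succ_column_zero, Fin.sum_univ_succ]
    simp only [Matrix.of_apply, Fin.cases_zero, Fin.cons_zero, Fin.val_zero, pow_zero, mul_one,
      one_mul, Fin.cases_succ, mul_zero, zero_mul, Finset.sum_const_zero, add_zero,
      Fin.succAbove_zero]
    rw [Module.Basis.det_apply, ← Matrix.det_transpose]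
    congr 1
  · intro i j
    refine Fin.cases ?_ (fun i => ?_) i <;> refine Fin.cases ?_ (fun j => ?_) j <;> simp

lemma sum_det {V : Type} [AddCommGroup V] {n : ℕ} (b : Module.Basis (Fin n) ℤ V)
    (w : Fin (n + 2) → V) :
    ∑ i : Fin (n + 2), (-1) ^ (i : ℕ) *
      b.det (fun j : Fin n => w (i.succAbove j.succ) - w (i.succAbove 0)) = 0 := by
  have h1 : (Matrix.of fun i : Fin (n + 2) =>
      (Fin.cons 1 (Fin.cons 1 (fun j => b.repr (w i) j) : Fin (n + 1) → ℤ) :
        Fin (n + 2) → ℤ)).det = 0 := by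
    refine Matrix.det_zero_of_column_eq (i := 0) (j := 1) (by simp) fun k => ?_
    simp only [Matrix.of_apply, Fin.cons_zero]
    rw [show (1 : Fin (n + 2)) = Fin.succ 0 from rfl, Fin.cons_succ, Fin.cons_zero]
  rw [Matrix.det_succ_column_zero] at h1
  rw [← h1]
  refine Finset.sum_congr rfl fun i _ => ?_
  have h2 := det_diff b (fun j : Fin (n + 1) => w (i.succAbove j))
  rw [h2]
  simp only [Matrix.of_apply, Fin.cons_zero, mul_one]
  congr 1

variable {V : Type} [AddCommGroup V] {Q : Type} [Group Q] {φ : Q →* MulAut (Multiplicative V)}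

/-- The image of `0` under the affine map given by an element of `V ⋊ Q`. -/
def pos (g : SemidirectProduct (Multiplicative V) Q φ) : V := Multiplicative.toAdd g.left

/-- The determinant cocycle. -/
noncomputable def D {n : ℕ} (b : Module.Basis (Fin n) ℤ V) (m : ℕ)
    (v : Fin (n + 1) → SemidirectProduct (Multiplicative V) Q φ) : ZMod m :=
  ((b.det (fun i : Fin n => pos (v i.succ) - pos (v 0)) : ℤ) : ZMod m)

/-- The linear map given by an element of `Q`. -/
def lin (φ : Q →* MulAut (Multiplicative V)) (q : Q) : V →ₗ[ℤ] V :=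
  (AddMonoidHom.toIntLinearMap (MonoidHom.toAdditive (φ q).toMonoidHom) : V →ₗ[ℤ] V)

lemma pos_mul (g h : SemidirectProduct (Multiplicative V) Q φ) :
    pos (g * h) = pos g + lin φ g.right (pos h) := rfl

theorem cocycle {n : ℕ} (b : Module.Basis (Fin n) ℤ V) (m : ℕ)
    (hφ : ∀ q, LinearMap.det (lin φ q) = 1) :
    IsCocycle (G := SemidirectProduct (Multiplicative V) Q φ) (D b m) := by
  refine ⟨fun g v => ?_, fun v => ?_⟩
  · have h1 : (fun i : Fin n => pos (g * v i.succ) - pos (g * v 0)) =
        lin φ g.right ∘ fun i : Fin n => pos (v i.succ) - pos (v 0) := by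
      funext i
      simp only [comp_apply, pos_mul, map_sub]
      abel
    unfold D
    rw [h1, Module.Basis.det_comp, hφ, one_mul]
  · have h1 := sum_det b (fun i => pos (v i))
    have h2 := congrArg (Int.cast : ℤ → ZMod m) h1
    push_cast at h2
    exact h2

/-! the value of the cocycle -/

/-- the position as a homomorphism on `V` -/
def emb (φ : Q →* MulAut (Multiplicative V)) (x : V) : SemidirectProduct (Multiplicative V) Q φ :=
  SemidirectProduct.inl (Multiplicative.ofAdd x)

lemma path_pos {n : ℕ} (x : Fin n → V) (i : Fin (n + 1)) :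
    pos (path (fun j => emb φ (x j)) i) = ∑ j : Fin n, if (j : ℕ) < i then x j else 0 := by
  have h1 : path (fun j => emb φ (x j)) i =
      emb φ (∑ j : Fin n, if (j : ℕ) < i then x j else 0) := by
    unfold path
    rw [Fin.sum_univ_def]
    induction (List.finRange n) with
    | nil => rfl
    | cons a l ih =>
      rw [List.map_cons, List.prod_cons, ih, List.map_cons, List.sum_cons]
      split_ifs with h
      · simp [emb]
      · simp [emb]
  rw [h1]
  rfl

lemma det_sums {n : ℕ} (b : Module.Basis (Fin n) ℤ V) (σ : Equiv.Perm (Fin n)) :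
    b.det (fun i : Fin n => ∑ j : Fin n, if (j : ℕ) < (i.succ : Fin (n + 1)) then b (σ j) else 0) =
      (Equiv.Perm.sign σ : ℤ) := by
  have h1 : b.toMatrix (fun i : Fin n => ∑ j : Fin n,
      if (j : ℕ) < (i.succ : Fin (n + 1)) then b (σ j) else 0) =
      (σ.permMatrix ℤ).transpose * Matrix.of fun j i : Fin n => if j ≤ i then (1 : ℤ) else 0 := by
    ext k i
    rw [Module.Basis.toMatrix_apply, Matrix.mul_apply, map_sum, Finsupp.coe_finset_sum,
      Finset.sum_apply]
    refine Finset.sum_congr rfl fun j _ => ?_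
    have h2 : ((j : ℕ) < (i.succ : Fin (n + 1))) ↔ j ≤ i := by
      rw [Fin.val_succ, Nat.lt_succ_iff, Fin.le_def]
    simp only [h2, Matrix.of_apply, Matrix.transpose_apply, Equiv.Perm.permMatrix,
      PEquiv.toMatrix_apply, Equiv.toPEquiv_apply, Option.mem_def, Option.some.injEq]
    split_ifs with h3 h4 h4 <;> simp [h4, Finsupp.single_apply]
  rw [Module.Basis.det_apply, h1, Matrix.det_mul, Matrix.det_transpose, Matrix.det_permutation,
    Matrix.det_of_upperTriangular]
  · simp
  · intro i j hij
    have h4 : ¬ i ≤ j := not_le.2 hij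
    simp [h4]

theorem value {n : ℕ} (b : Module.Basis (Fin n) ℤ V) (m : ℕ) :
    torusValue (D (φ := φ) b m) (fun j => emb φ (b j)) = ((n.factorial : ℕ) : ZMod m) := by
  unfold torusValue
  have h1 : ∀ σ : Equiv.Perm (Fin n), D (φ := φ) b m (path ((fun j => emb φ (b j)) ∘ σ)) =
      ((Equiv.Perm.sign σ : ℤ) : ZMod m) := by
    intro σ
    unfold D
    rw [← det_sums b σ]
    congr 3
    funext i
    have h2 := path_pos (φ := φ) (fun j => b (σ j)) i.succ
    have h3 := path_pos (φ := φ) (fun j => b (σ j)) 0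
    change pos (path (fun j => emb φ (b (σ j))) i.succ) - pos (path (fun j => emb φ (b (σ j))) 0) = _
    rw [h2, h3]
    simp
  simp only [h1]
  have h2 : ∀ σ : Equiv.Perm (Fin n), ((Equiv.Perm.sign σ : ℤ) : ZMod m) *
      ((Equiv.Perm.sign σ : ℤ) : ZMod m) = 1 := by
    intro σ
    rw [← Int.cast_mul]
    rcases Int.units_eq_one_or (Equiv.Perm.sign σ) with h | h <;> simp [h]
  simp only [h2, Finset.sum_const, Finset.card_univ, Fintype.card_perm, Fintype.card_fin,
    nsmul_eq_mul, mul_one]

end Pool.Agent.V7H36.QL
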