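import Mathlib

/-!
# The Quillen-Lichtenbaum dimension of smooth categories: definitions
-/

set_option autoImplicit false

open Function

namespace Pool.Agent.V7H36.QL

/-- A homogeneous `n`-cocycle of the group `G` with values in `ℤ/m`. -/
def IsCocycle {G : Type} [Group G] {m n : ℕ} (c : (Fin (n + 1) → G) → ZMod m) : Prop :=
  (∀ (g : G) (v : Fin (n + 1) → G), c (fun i => g * v i) = c v) ∧
  ∀ v : Fin (n + 2) → G, ∑ i : Fin (n + 2), (-1) ^ (i : ℕ) * c (fun j => v (i.succAbove j)) = 0

/-- The partial products `1, x_0, x_0 x_1, …, x_0 ⋯ x_{n-1}`: `path x i = x_0 ⋯ x_{i-1}`. -/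
def path {G : Type} [Group G] {n : ℕ} (x : Fin n → G) (i : Fin (n + 1)) : G :=
  ((List.finRange n).map fun j : Fin n => if (j : ℕ) < i then x j else 1).prod

/-- The value of the cocycle `c` on the `n`-cycle of the commuting elements `x_0, …, x_{n-1}`:
`∑_σ sign(σ) c (1, x_σ(0), x_σ(0) x_σ(1), …)`. -/
def torusValue {G : Type} [Group G] {m n : ℕ} (c : (Fin (n + 1) → G) → ZMod m)
    (x : Fin n → G) : ZMod m :=
  ∑ σ : Equiv.Perm (Fin n), ((Equiv.Perm.sign σ : ℤ) : ZMod m) * c (path (x ∘ σ))

/-- A group. -/
structure Gp where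
  carrier : Type
  [str : Group carrier]

attribute [instance] Gp.str

/-- The homomorphisms. -/
def Gp.Hom (G G' : Gp) : Type := G.carrier →* G'.carrier

/-- The composition of homomorphisms, first `f` and then `g`. -/
def Gp.Hom.then {G G' G'' : Gp} (f : G.Hom G') (g : G'.Hom G'') : G.Hom G'' :=
  MonoidHom.comp (M := G.carrier) (N := G'.carrier) (P := G''.carrier) g f

/-- The elements commute. -/
def Commuting {G : Gp} {n : ℕ} (x : Fin n → G.carrier) : Prop := ∀ i j, x i * x j = x j * x i

/-- The images of the elements. -/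
def Gp.Hom.app {G G' : Gp} (f : G.Hom G') {n : ℕ} (x : Fin n → G.carrier) : Fin n → G'.carrier :=
  fun i => (show G.carrier →* G'.carrier from f) (x i)

/-- The group of the presentation with the generators `0, …, k - 1` and the relations `R`. -/
def presented (k : ℕ) (R : Set (FreeGroup (Fin k))) : Gp := ⟨PresentedGroup R⟩

/-- A free abelian group `V` of rank `n` with an action `φ` of `ℤ²`. -/
structure Lat (n : ℕ) where
  V : Type
  [grp : AddCommGroup V]
  basis : Module.Basis (Fin n) ℤ V
  φ : Multiplicative ℤ × Multiplicative ℤ →* MulAut (Multiplicative V)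

attribute [instance] Lat.grp

/-- The group `V`. -/
def Lat.base {n : ℕ} (L : Lat n) : Gp := ⟨Multiplicative L.V⟩

/-- The group `V ⋊ ℤ²`. -/
def Lat.total {n : ℕ} (L : Lat n) : Gp := ⟨SemidirectProduct _ _ L.φ⟩

/-- The inclusion of `V` in `V ⋊ ℤ²`. -/
def Lat.incl {n : ℕ} (L : Lat n) : L.base.Hom L.total := (SemidirectProduct.inl (φ := L.φ) :)

/-- `n + 2`. -/
def sh (n : ℤ) : ℤ := n + 2

/-- Algebraic and topological K-theory of stable `ℂ`-linear `∞`-categories with finite coefficients
(as sets; the group structures are not needed).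

* `Cat`: the small idempotent complete stable `ℂ`-linear `∞`-categories; `Smooth`: the smooth ones
  (the diagonal bimodule is compact);
* `K A m n = K_n(A, ℤ/m)` (nonconnective), `Kt A m n = K^top_n(A, ℤ/m)` (Blanc), `cmp`: the
  comparison map; `bott`, `bottT`: the multiplication by the Bott element of `K_2(ℂ, ℤ/m)`, for an odd
  prime number `m` (for other `m` there is no condition on these maps). -/
structure KData where
  Cat : Type 1
  Smooth : Cat → Prop
  K : Cat → ℕ → ℤ → Type
  Kt : Cat → ℕ → ℤ → Type
  cmp : ∀ A m n, K A m n → Kt A m n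
  bott : ∀ A m n, K A m n → K A m (sh n)
  bottT : ∀ A m n, Kt A m n → Kt A m (sh n)

/-- `dim_QL A ≤ d`: for all `m ≥ 1` the comparison map `K_n(A, ℤ/m) → K^top_n(A, ℤ/m)` is bijective for
`n ≥ d - 1` and injective for `n = d - 2`. -/
def KData.QLDimLE (T : KData) (A : T.Cat) (d : ℤ) : Prop :=
  ∀ m : ℕ, 1 ≤ m → (∀ n : ℤ, d - 1 ≤ n → Bijective (T.cmp A m n)) ∧ Injective (T.cmp A m (d - 2))

/-- Connective dg algebras.

* `Alg`: the connective dg algebras over `ℂ`; `Perf S`: the category of the perfect `S`-modules;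
  `IsPi0 S R`: `R` is an algebra (in degree `0`), and it is isomorphic to `H_0(S)`;
* `gr G`: the group algebra `ℂ[G]`; `map f`, `mapT f`: the maps given by a homomorphism `f` of groups;
* `loop k R`: the algebra `C_*(ΩX; ℂ)` of the chains of the loop space of the complex `X` of the
  presentation with the generators `0, …, k - 1` and the relations `R`: it has one vertex, one loop for
  each generator, and one `2`-cell for each relation. -/
structure AlgData extends KData where
  Alg : Type 1
  Perf : Alg → Cat
  IsPi0 : Alg → Alg → Prop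
  gr : Gp → Alg
  loop : ∀ k : ℕ, Set (FreeGroup (Fin k)) → Alg
  map : ∀ {G G' : Gp} (_ : G.Hom G') (m : ℕ) (n : ℤ), K (Perf (gr G)) m n → K (Perf (gr G')) m n
  mapT : ∀ {G G' : Gp} (_ : G.Hom G') (m : ℕ) (n : ℤ),
    Kt (Perf (gr G)) m n → Kt (Perf (gr G')) m n

/-- The category of the perfect `ℂ[G]`-modules. -/
abbrev AlgData.perf (T : AlgData) (G : Gp) : T.Cat := T.Perf (T.gr G)

/-- Group homology: `H G m n = H_n(G; ℤ/m)` with its element `zero`, `mapH f` for a homomorphism `f`;
`torus m x`: for commuting elements `x_0, …, x_{n-1}` of `G` the image of the fundamental class of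
`ℤ^n` under `ℤ^n → G`. -/
structure HData where
  H : Gp → ℕ → ℕ → Type
  zero : ∀ G m n, H G m n
  mapH : ∀ {G G' : Gp} (_ : G.Hom G') (m n : ℕ), H G m n → H G' m n
  torus : ∀ {G : Gp} (m : ℕ) {n : ℕ} (_ : Fin n → G.carrier), H G m n

/-- The data: K-theory, dg algebras and group homology. -/
structure Theory extends AlgData, HData

/-- The comparison maps of `A` and `B` are isomorphic, for the coefficients `ℤ/m` and in degree `n`. -/
def KData.SameCmp (T : KData) (A B : T.Cat) (m : ℕ) (n : ℤ) : Prop :=
  ∃ (e : T.K A m n ≃ T.K B m n) (e' : T.Kt A m n ≃ T.Kt B m n),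
    ∀ x, e' (T.cmp A m n x) = T.cmp B m n (e x)

/-- Known facts on the algebra of chains of a loop space and on connective dg algebras. -/
structure LoopFacts (T : AlgData) : Prop where
  /-- `C_*(ΩX; ℂ)` is smooth if `X` is a finite complex. -/
  smooth_loop : ∀ k R, R.Finite → T.Smooth (T.Perf (T.loop k R))
  /-- `H_0(ΩX; ℂ) = ℂ[π_1(X)]`, and `π_1(X)` is the group of the presentation. -/
  pi0_loop : ∀ k R, T.IsPi0 (T.loop k R) (T.gr (presented k R))
  /-- Goodwillie: the relative K-theory of `S → H_0(S)` is a rational vector space. So with finite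
  coefficients the map is an isomorphism in algebraic K-theory; the same holds for the tensor product
  with a smooth commutative algebra, and so also for topological K-theory. -/
  goodwillie : ∀ S R, T.IsPi0 S R → ∀ m n, 1 ≤ m → T.SameCmp (T.Perf S) (T.Perf R) m n

/-- Naturality for the group algebras. -/
structure NaturalFacts (T : AlgData) : Prop where
  /-- the comparison map is natural -/
  cmp_map : ∀ {G G' : Gp} (f : G.Hom G') m n x,
    T.cmp (T.perf G') m n (T.map f m n x) = T.mapT f m n (T.cmp (T.perf G) m n x)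
  /-- functoriality -/
  mapT_comp : ∀ {G G' G'' : Gp} (f : G.Hom G') (g : G'.Hom G'') m n x,
    T.mapT (f.then g) m n x = T.mapT g m n (T.mapT f m n x)

/-- The Bott element. -/
structure BottFacts (T : AlgData) : Prop where
  /-- it is compatible with the comparison map -/
  cmp_bott : ∀ A p n, p.Prime → p ≠ 2 → ∀ x,
    T.cmp A p (sh n) (T.bott A p n x) = T.bottT A p n (T.cmp A p n x)
  /-- it is invertible in topological K-theory -/
  bottT_bijective : ∀ A p n, p.Prime → p ≠ 2 → Bijective (T.bottT A p n)
  /-- it is natural -/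
  mapT_bottT : ∀ {G G' : Gp} (f : G.Hom G') p n, p.Prime → p ≠ 2 → ∀ x,
    T.mapT f p (sh n) (T.bottT (T.perf G) p n x) = T.bottT (T.perf G') p n (T.mapT f p n x)

/-- Let `V` be a free abelian group of rank `k + 2` and `Γ` a semidirect product `V ⋊ ℤ²`. By
Quillen's theorem on (twisted) Laurent polynomial rings and Suslin's theorem (that is, the
Farrell-Jones conjecture for poly-`ℤ` groups) `K_*(ℂ[Γ], ℤ/p)` is the homology
`ku_*(BΓ; ℤ/p)`; also for `V` in place of `Γ`. Here `hV` and `hΓ` are given by the map `ku → Hℤ`. It is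
zero on the multiples of the Bott element, and for `V` it is surjective, because a torus
is stably a wedge of spheres. -/
def HurewiczFact (T : Theory) {k : ℕ} (L : Lat (k + 2)) (p : ℕ) : Prop :=
  ∃ (hV : T.K (T.perf L.base) p (sh k) → T.H L.base p (k + 2))
    (hΓ : T.K (T.perf L.total) p (sh k) → T.H L.total p (k + 2)),
    Surjective hV ∧ (∀ w, hΓ (T.bott _ p k w) = T.zero _ _ _) ∧
    ∀ y, hΓ (T.map L.incl p _ y) = T.mapH L.incl p _ (hV y)

/-- The K-theory of the group algebras of `V` and `Γ = V ⋊ ℤ²` for free abelian groups `V` of rank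
`k + 2 ≥ 2`. -/
structure PolyZFacts (T : Theory) : Prop where
  hurewicz : ∀ {k : ℕ} (L : Lat (k + 2)) (p : ℕ), p.Prime → p ≠ 2 → HurewiczFact T L p
  /-- `dim_QL ℂ[Γ] ≤ k + 4`, because `BΓ` is a manifold of dimension `k + 4`, and the comparison map
  is `ku_*(BΓ; ℤ/m) → KU_*(BΓ; ℤ/m)`. -/
  qlDim : ∀ {k : ℕ} (L : Lat (k + 2)), T.QLDimLE (T.perf L.total) (k + 4)

/-- Group homology. -/
structure HomologyFacts (T : HData) : Prop where
  /-- the class of commuting elements is natural -/
  mapH_torus : ∀ {G G' : Gp} (f : G.Hom G') (m : ℕ) {n : ℕ} (x : Fin n → G.carrier),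
    Commuting x → T.mapH f m n (T.torus m x) = T.torus m (f.app x)
  /-- group homology by the homogeneous bar complex: a cocycle defines a linear form on the
  homology, with the known value at the class of commuting elements -/
  eval : ∀ {G : Gp} (m n : ℕ) (c : (Fin (n + 1) → G.carrier) → ZMod m), IsCocycle c →
    ∃ e : T.H G m n → ZMod m, e (T.zero G m n) = 0 ∧
      ∀ x : Fin n → G.carrier, Commuting x → e (T.torus m x) = torusValue c x

/-- The known facts. -/
structure IsTheory (T : Theory) : Prop extends LoopFacts T.toAlgData, NaturalFacts T.toAlgData,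
  BottFacts T.toAlgData, PolyZFacts T, HomologyFacts T.toHData

end Pool.Agent.V7H36.QL
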